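import Pool.Agent.H5.OR.Targets

/-!
# MP_e1fd52_al, row AP of org_modules
-/

set_option autoImplicit false

open scoped Classical

namespace Pool.Agent.H53.ORx

open ORg

theorem pf_AP (AM : T_AM) (AF : T_AF) : T_AP := by
  intro X1 X2
  have hPO : IsPO (1 : PUnit →* FreeGroup X1) (1 : PUnit →* FreeGroup X2)
      (FreeGroup.map (Sum.inl : X1 → X1 ⊕ X2)) (FreeGroup.map (Sum.inr : X2 → X1 ⊕ X2)) := by
    refine ⟨?_, ?_, ?_⟩
    · intro h
      simp
    · intro K _ u v _
      refine ⟨FreeGroup.lift (Sum.elim (fun x => u (FreeGroup.of x))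
        (fun x => v (FreeGroup.of x))), ?_, ?_⟩
      · intro x
        have : (FreeGroup.lift (Sum.elim (fun x => u (FreeGroup.of x))
            (fun x => v (FreeGroup.of x)))).comp (FreeGroup.map (Sum.inl : X1 → X1 ⊕ X2)) = u := by
          ext a
          simp
        exact DFunLike.congr_fun this x
      · intro x
        have : (FreeGroup.lift (Sum.elim (fun x => u (FreeGroup.of x))
            (fun x => v (FreeGroup.of x)))).comp (FreeGroup.map (Sum.inr : X2 → X1 ⊕ X2)) = v := by
          ext a
          simp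
        exact DFunLike.congr_fun this x
    · intro K _ k l h1 h2
      refine FreeGroup.ext_hom _ _ ?_
      rintro (a | a)
      · have := h1 (FreeGroup.of a)
        simpa using this
      · have := h2 (FreeGroup.of a)
        simpa using this
  have hf : Function.Injective (1 : PUnit →* FreeGroup X1) := fun a b _ => Subsingleton.elim a b
  have hg : Function.Injective (1 : PUnit →* FreeGroup X2) := fun a b _ => Subsingleton.elim a b
  obtain ⟨_, _, h3, S, r, b, hS⟩ := AM PUnit (FreeGroup X1) (FreeGroup X2) (FreeGroup (X1 ⊕ X2))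
    1 1 _ _ hPO hf hg
  refine ⟨S, r, b, hS, AF _ _ _ S r b hS ?_⟩
  rw [eq_bot_iff]
  rintro g ⟨⟨x, hx⟩, ⟨y, hy⟩⟩
  obtain ⟨h, hh, _⟩ := h3 x y (hx.trans hy.symm)
  rw [Subgroup.mem_bot, ← hx, hh]
  simp

end Pool.Agent.H53.ORx
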